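import Pool.Agent.Helper31.CY.St1

/-!
# Module NRI of project CY (MP_9583f0_gt)

The linear images of the cones `Y` and `T` are not rotationally invariant.
-/

set_option autoImplicit false

open Set Topology Filter

namespace Pool.Agent.Helper40.CY

open Pool.Agent.Helper31.CY

private lemma pt0 (a b c : ℝ) : pt a b c 0 = a := by simp [pt]
private lemma pt1 (a b c : ℝ) : pt a b c 1 = b := by simp [pt]
private lemma pt2 (a b c : ℝ) : pt a b c 2 = c := by simp [pt]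

private lemma ext3 {x y : E3} (h0 : x 0 = y 0) (h1 : x 1 = y 1) (h2 : x 2 = y 2) : x = y := by
  ext i
  fin_cases i
  · exact h0
  · exact h1
  · exact h2

private lemma pt_dec (a b c : ℝ) : pt a b c = a • pt 1 0 0 + b • pt 0 1 0 + c • pt 0 0 1 := by
  refine ext3 ?_ ?_ ?_
  · simp [pt]
  · simp [pt]
  · simp [pt]

private lemma pt_self (x : E3) : x = pt (x 0) (x 1) (x 2) :=
  ext3 (pt0 _ _ _).symm (pt1 _ _ _).symm (pt2 _ _ _).symm

private lemma lin_pt (L : E3 →ₗ[ℝ] ℝ) (a b c : ℝ) :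
    L (pt a b c) = a * L (pt 1 0 0) + b * L (pt 0 1 0) + c * L (pt 0 0 1) := by
  rw [pt_dec a b c, map_add, map_add, map_smul, map_smul, map_smul]
  simp only [smul_eq_mul]

private lemma lin_zero (L : E3 →ₗ[ℝ] ℝ) (h0 : L (pt 1 0 0) = 0) (h1 : L (pt 0 1 0) = 0)
    (h2 : L (pt 0 0 1) = 0) (x : E3) : L x = 0 := by
  rw [pt_self x, lin_pt, h0, h1, h2]
  ring

/-- the rational parametrization of the circle -/
private lemma circ_param (t : ℝ) : (1 + t ^ 2) * Real.cos (2 * Real.arctan t) = 1 - t ^ 2 ∧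
    (1 + t ^ 2) * Real.sin (2 * Real.arctan t) = 2 * t := by
  have hpos : 0 < 1 + t ^ 2 := by positivity
  have hs : Real.sqrt (1 + t ^ 2) ^ 2 = 1 + t ^ 2 := Real.sq_sqrt hpos.le
  have hs0 : Real.sqrt (1 + t ^ 2) ≠ 0 := (Real.sqrt_pos.mpr hpos).ne'
  rw [Real.cos_two_mul, Real.sin_two_mul, Real.cos_arctan, Real.sin_arctan]
  obtain ⟨s, hs'⟩ : ∃ s, s = Real.sqrt (1 + t ^ 2) := ⟨_, rfl⟩
  rw [← hs'] at hs hs0 ⊢
  rw [← hs]
  constructor
  · field_simp
    linarith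
  · field_simp

/-- a rotational orbit in finitely many planes -/
private lemma orbit {m : ℕ} (n : Fin m → (E3 →ₗ[ℝ] ℝ)) (hn : ∀ j, n j ≠ 0) (v : E3)
    (h : ∀ θ : ℝ, ∃ j, n j (rot θ v) = 0) : v 2 = 0 ∨ (v 0 = 0 ∧ v 1 = 0) := by
  by_contra hcon
  push Not at hcon
  obtain ⟨hv2, hv01⟩ := hcon
  obtain ⟨α, hα⟩ : ∃ α : Fin m → ℝ, ∀ j, α j = v 0 * n j (pt 1 0 0) + v 1 * n j (pt 0 1 0) :=
    ⟨fun j => v 0 * n j (pt 1 0 0) + v 1 * n j (pt 0 1 0), fun _ => rfl⟩
  obtain ⟨β, hβ⟩ : ∃ β : Fin m → ℝ, ∀ j, β j = v 0 * n j (pt 0 1 0) - v 1 * n j (pt 1 0 0) :=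
    ⟨fun j => v 0 * n j (pt 0 1 0) - v 1 * n j (pt 1 0 0), fun _ => rfl⟩
  obtain ⟨γ, hγ⟩ : ∃ γ : Fin m → ℝ, ∀ j, γ j = v 2 * n j (pt 0 0 1) :=
    ⟨fun j => v 2 * n j (pt 0 0 1), fun _ => rfl⟩
  have hval : ∀ (j : Fin m) (t : ℝ), (1 + t ^ 2) * n j (rot (2 * Real.arctan t) v) =
      α j * (1 - t ^ 2) + β j * (2 * t) + γ j * (1 + t ^ 2) := by
    intro j t
    obtain ⟨hc, hs⟩ := circ_param t
    unfold rot
    rw [lin_pt, hα, hβ, hγ, ← hc, ← hs]
    ring
  obtain ⟨p, hp⟩ : ∃ p : Fin m → Polynomial ℝ, ∀ j, p j = Polynomial.C (γ j - α j) * Polynomial.X ^ 2 +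
      Polynomial.C (2 * β j) * Polynomial.X + Polynomial.C (α j + γ j) := ⟨_, fun _ => rfl⟩
  have hev : ∀ (j : Fin m) (t : ℝ), (p j).eval t = (1 + t ^ 2) * n j (rot (2 * Real.arctan t) v) := by
    intro j t
    rw [hval, hp]
    simp only [Polynomial.eval_add, Polynomial.eval_mul, Polynomial.eval_C, Polynomial.eval_pow,
      Polynomial.eval_X]
    ring
  have hprod : ∏ j, p j = 0 := by
    apply Polynomial.funext
    intro t
    rw [Polynomial.eval_prod, Polynomial.eval_zero]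
    obtain ⟨j, hj⟩ := h (2 * Real.arctan t)
    refine Finset.prod_eq_zero (Finset.mem_univ j) ?_
    rw [hev, hj, mul_zero]
  rw [Finset.prod_eq_zero_iff] at hprod
  obtain ⟨j, -, hj⟩ := hprod
  have e0 : α j + γ j = 0 := by
    have h1 := congrArg (fun q => Polynomial.eval 0 q) hj
    simp only [hp, Polynomial.eval_add, Polynomial.eval_mul, Polynomial.eval_C, Polynomial.eval_pow,
      Polynomial.eval_X, Polynomial.eval_zero] at h1
    linarith
  have e1 : (γ j - α j) + 2 * β j + (α j + γ j) = 0 := by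
    have h1 := congrArg (fun q => Polynomial.eval 1 q) hj
    simp only [hp, Polynomial.eval_add, Polynomial.eval_mul, Polynomial.eval_C, Polynomial.eval_pow,
      Polynomial.eval_X, Polynomial.eval_zero] at h1
    linarith
  have e2 : (γ j - α j) - 2 * β j + (α j + γ j) = 0 := by
    have h1 := congrArg (fun q => Polynomial.eval (-1) q) hj
    simp only [hp, Polynomial.eval_add, Polynomial.eval_mul, Polynomial.eval_C, Polynomial.eval_pow,
      Polynomial.eval_X, Polynomial.eval_zero] at h1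
    linarith
  have hγ0 : γ j = 0 := by linarith
  have hα0 : α j = 0 := by linarith
  have hβ0 : β j = 0 := by linarith
  rw [hα] at hα0
  rw [hβ] at hβ0
  rw [hγ] at hγ0
  have hq : 0 < v 0 ^ 2 + v 1 ^ 2 := by
    by_cases h0 : v 0 = 0
    · have h1 := hv01 h0
      positivity
    · positivity
  have g2 : n j (pt 0 0 1) = 0 := by
    rcases mul_eq_zero.mp hγ0 with h1 | h1
    · exact absurd h1 hv2
    · exact h1
  have g0 : n j (pt 1 0 0) = 0 := by
    have h1 : (v 0 ^ 2 + v 1 ^ 2) * n j (pt 1 0 0) = 0 := by linear_combination v 0 * hα0 - v 1 * hβ0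
    rcases mul_eq_zero.mp h1 with h2 | h2
    · exact absurd h2 hq.ne'
    · exact h2
  have g1 : n j (pt 0 1 0) = 0 := by
    have h1 : (v 0 ^ 2 + v 1 ^ 2) * n j (pt 0 1 0) = 0 := by linear_combination v 1 * hα0 + v 0 * hβ0
    rcases mul_eq_zero.mp h1 with h2 | h2
    · exact absurd h2 hq.ne'
    · exact h2
  refine hn j (LinearMap.ext fun x => ?_)
  rw [lin_zero (n j) g0 g1 g2 x]
  rfl

/-- the functional `p x0 + q x1 + r x2` -/
private noncomputable def fn (p q r : ℝ) : E3 →ₗ[ℝ] ℝ :=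
  p • (EuclideanSpace.proj (0 : Fin 3) : E3 →L[ℝ] ℝ).toLinearMap +
    q • (EuclideanSpace.proj (1 : Fin 3) : E3 →L[ℝ] ℝ).toLinearMap +
    r • (EuclideanSpace.proj (2 : Fin 3) : E3 →L[ℝ] ℝ).toLinearMap

private lemma fn_apply (p q r : ℝ) (x : E3) : fn p q r x = p * x 0 + q * x 1 + r * x 2 := by
  simp [fn]

private lemma fn_ne {p q r : ℝ} (h : 0 < p ^ 2 + q ^ 2 + r ^ 2) : fn p q r ≠ 0 := by
  intro h0
  have h1 : fn p q r (pt p q r) = 0 := by
    rw [h0]
    rfl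
  rw [fn_apply, pt0, pt1, pt2] at h1
  nlinarith

/-- a sector in the cone `C` -/
private lemma pair {K C : Set E3} (A : E3 ≃L[ℝ] E3) (hK : ∀ v, v ∈ K ↔ A v ∈ C)
    (hX : ∀ v ∈ K, v 2 = 0 ∨ (v 0 = 0 ∧ v 1 = 0)) (y y' : E3)
    (hs : ∀ s t : ℝ, 0 ≤ s → 0 ≤ t → s • y + t • y' ∈ C)
    (hi : ∀ α β : ℝ, α • y + β • y' = 0 → α = 0 ∧ β = 0) :
    (A.symm y) 2 = 0 ∧ (A.symm y') 2 = 0 := by
  obtain ⟨a, ha⟩ : ∃ a, a = A.symm y := ⟨_, rfl⟩
  obtain ⟨b, hb⟩ : ∃ b, b = A.symm y' := ⟨_, rfl⟩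
  have hAa : A a = y := by rw [ha, A.apply_symm_apply]
  have hAb : A b = y' := by rw [hb, A.apply_symm_apply]
  rw [← ha, ← hb]
  have hv : ∀ s t : ℝ, 0 ≤ s → 0 ≤ t →
      s * a 2 + t * b 2 = 0 ∨ (s * a 0 + t * b 0 = 0 ∧ s * a 1 + t * b 1 = 0) := by
    intro s t h1 h2
    have h3 : s • a + t • b ∈ K := by
      rw [hK, map_add, map_smul, map_smul, hAa, hAb]
      exact hs s t h1 h2
    have h4 := hX _ h3
    simpa using h4
  have hnot : ¬ (a 0 = 0 ∧ a 1 = 0 ∧ b 0 = 0 ∧ b 1 = 0) := by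
    rintro ⟨h1, h2, h3, h4⟩
    have h5 : b 2 • a + (-(a 2)) • b = 0 := by
      refine ext3 ?_ ?_ ?_
      · simp [h1, h3]
      · simp [h2, h4]
      · simp only [PiLp.add_apply, PiLp.smul_apply, smul_eq_mul, PiLp.zero_apply]
        ring
    have h6 : b 2 • y + (-(a 2)) • y' = 0 := by
      rw [← hAa, ← hAb, ← map_smul, ← map_smul, ← map_add, h5, map_zero]
    obtain ⟨h7, h8⟩ := hi _ _ h6
    have h9 : a = 0 := ext3 h1 h2 (by
      have : a 2 = 0 := by linarith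
      rw [this]
      rfl)
    have h10 : y = 0 := by rw [← hAa, h9, map_zero]
    have h11 := hi 1 0 (by rw [h10]; simp)
    exact one_ne_zero h11.1
  constructor
  · by_contra ha2
    have h1 : a 0 = 0 ∧ a 1 = 0 := by
      rcases hv 1 0 zero_le_one le_rfl with h | ⟨h, h'⟩
      · exact absurd (by linarith) ha2
      · exact ⟨by linarith, by linarith⟩
    have h2 : ∃ t : ℝ, 0 < t ∧ a 2 + t * b 2 ≠ 0 := by
      by_cases h : a 2 + 1 * b 2 = 0
      · refine ⟨2, by norm_num, fun h' => ha2 (by linarith)⟩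
      · exact ⟨1, one_pos, h⟩
    obtain ⟨t, ht, ht'⟩ := h2
    rcases hv 1 t zero_le_one ht.le with h | ⟨h, h'⟩
    · exact ht' (by linarith)
    · have h3 : t * b 0 = 0 := by rw [h1.1] at h; linarith
      have h4 : t * b 1 = 0 := by rw [h1.2] at h'; linarith
      refine hnot ⟨h1.1, h1.2, ?_, ?_⟩
      · rcases mul_eq_zero.mp h3 with h5 | h5
        · exact absurd h5 ht.ne'
        · exact h5
      · rcases mul_eq_zero.mp h4 with h5 | h5
        · exact absurd h5 ht.ne'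
        · exact h5
  · by_contra hb2
    have h1 : b 0 = 0 ∧ b 1 = 0 := by
      rcases hv 0 1 le_rfl zero_le_one with h | ⟨h, h'⟩
      · exact absurd (by linarith) hb2
      · exact ⟨by linarith, by linarith⟩
    have h2 : ∃ t : ℝ, 0 < t ∧ t * a 2 + b 2 ≠ 0 := by
      by_cases h : 1 * a 2 + b 2 = 0
      · refine ⟨2, by norm_num, fun h' => hb2 (by linarith)⟩
      · exact ⟨1, one_pos, h⟩
    obtain ⟨t, ht, ht'⟩ := h2
    rcases hv t 1 ht.le zero_le_one with h | ⟨h, h'⟩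
    · exact ht' (by linarith)
    · have h3 : t * a 0 = 0 := by rw [h1.1] at h; linarith
      have h4 : t * a 1 = 0 := by rw [h1.2] at h'; linarith
      refine hnot ⟨?_, ?_, h1.1, h1.2⟩
      · rcases mul_eq_zero.mp h3 with h5 | h5
        · exact absurd h5 ht.ne'
        · exact h5
      · rcases mul_eq_zero.mp h4 with h5 | h5
        · exact absurd h5 ht.ne'
        · exact h5

/-- the points of an invariant set in finitely many planes -/
private lemma inv_axis {K C : Set E3} (A : E3 ≃L[ℝ] E3) (hinv : ∀ v ∈ K, ∀ θ : ℝ, rot θ v ∈ K)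
    (hK : ∀ v, v ∈ K ↔ A v ∈ C) {m : ℕ} (N : Fin m → (E3 →ₗ[ℝ] ℝ)) (hN : ∀ j, N j ≠ 0)
    (hC : ∀ y ∈ C, ∃ j, N j y = 0) : ∀ v ∈ K, v 2 = 0 ∨ (v 0 = 0 ∧ v 1 = 0) := by
  intro v hv
  refine orbit (fun j => (N j).comp (A : E3 →L[ℝ] E3).toLinearMap) ?_ v ?_
  · intro j h
    refine hN j (LinearMap.ext fun y => ?_)
    have h1 := LinearMap.congr_fun h (A.symm y)
    simpa using h1
  · intro θ
    obtain ⟨j, hj⟩ := hC _ ((hK _).mp (hinv v hv θ))
    exact ⟨j, hj⟩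

/-- the third coordinate after `A⁻¹` -/
private noncomputable def gg (A : E3 ≃L[ℝ] E3) : E3 →ₗ[ℝ] ℝ :=
  (fn 0 0 1).comp (A.symm : E3 →L[ℝ] E3).toLinearMap

private lemma gg_apply (A : E3 ≃L[ℝ] E3) (y : E3) : gg A y = (A.symm y) 2 := by
  unfold gg
  rw [LinearMap.comp_apply, fn_apply]
  simp

private lemma gg_ne (A : E3 ≃L[ℝ] E3) (h : ∀ y, gg A y = 0) : False := by
  have h1 := h (A (pt 0 0 1))
  rw [gg_apply, A.symm_apply_apply, pt2] at h1
  exact one_ne_zero h1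

private lemma notY (K : Set E3) (A : E3 ≃L[ℝ] E3) (hinv : ∀ v ∈ K, ∀ θ : ℝ, rot θ v ∈ K)
    (hK : ∀ v, v ∈ K ↔ A v ∈ Ycone) : False := by
  have h3 : 0 < Real.sqrt 3 := Real.sqrt_pos.mpr (by norm_num)
  have hX := inv_axis A hinv hK (m := 3) ![fn 0 1 0, fn (Real.sqrt 3) 1 0, fn (Real.sqrt 3) (-1) 0]
    (by
      intro j
      fin_cases j
      · exact fn_ne (by norm_num)
      · exact fn_ne (by positivity)
      · exact fn_ne (by positivity))
    (by
      rintro y ⟨t, ht, h | h | h⟩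
      · refine ⟨0, ?_⟩
        have h1 : y 1 = 0 := congrArg Prod.snd h
        show fn 0 1 0 y = 0
        rw [fn_apply, h1]
        ring
      · refine ⟨1, ?_⟩
        have h0 : y 0 = -(t / 2) := congrArg Prod.fst h
        have h1 : y 1 = Real.sqrt 3 / 2 * t := congrArg Prod.snd h
        show fn (Real.sqrt 3) 1 0 y = 0
        rw [fn_apply, h0, h1]
        ring
      · refine ⟨2, ?_⟩
        have h0 : y 0 = -(t / 2) := congrArg Prod.fst h
        have h1 : y 1 = -(Real.sqrt 3 / 2 * t) := congrArg Prod.snd h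
        show fn (Real.sqrt 3) (-1) 0 y = 0
        rw [fn_apply, h0, h1]
        ring)
  have hp1 := pair A hK hX (pt 1 0 0) (pt 0 0 1)
    (by
      intro s t hs ht
      refine ⟨s, hs, Or.inl ?_⟩
      simp [pt])
    (by
      intro α β h
      have h0 : (α • pt 1 0 0 + β • pt 0 0 1 : E3) 0 = 0 := by rw [h]; rfl
      have h2 : (α • pt 1 0 0 + β • pt 0 0 1 : E3) 2 = 0 := by rw [h]; rfl
      simp [pt] at h0 h2
      exact ⟨h0, h2⟩)
  have hp2 := pair A hK hX (pt (-(1 / 2)) (Real.sqrt 3 / 2) 0) (pt 0 0 1)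
    (by
      intro s t hs ht
      refine ⟨s, hs, Or.inr (Or.inl ?_)⟩
      simp only [PiLp.add_apply, PiLp.smul_apply, smul_eq_mul, pt0, pt1]
      refine Prod.ext ?_ ?_
      · show s * -(1 / 2) + t * 0 = -(s / 2)
        ring
      · show s * (Real.sqrt 3 / 2) + t * 0 = Real.sqrt 3 / 2 * s
        ring)
    (by
      intro α β h
      have h0 : (α • pt (-(1 / 2)) (Real.sqrt 3 / 2) 0 + β • pt 0 0 1 : E3) 0 = 0 := by rw [h]; rfl
      have h2 : (α • pt (-(1 / 2)) (Real.sqrt 3 / 2) 0 + β • pt 0 0 1 : E3) 2 = 0 := by rw [h]; rfl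
      simp only [PiLp.add_apply, PiLp.smul_apply, smul_eq_mul, pt0, pt2] at h0 h2
      exact ⟨by linarith, by linarith⟩)
  have g0 : gg A (pt 1 0 0) = 0 := by rw [gg_apply]; exact hp1.1
  have g2 : gg A (pt 0 0 1) = 0 := by rw [gg_apply]; exact hp1.2
  have g1' : gg A (pt (-(1 / 2)) (Real.sqrt 3 / 2) 0) = 0 := by rw [gg_apply]; exact hp2.1
  have g1 : gg A (pt 0 1 0) = 0 := by
    rw [lin_pt, g0, g2] at g1'
    have h5 : Real.sqrt 3 / 2 * gg A (pt 0 1 0) = 0 := by linarith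
    rcases mul_eq_zero.mp h5 with h6 | h6
    · exact absurd h6 (by positivity)
    · exact h6
  exact gg_ne A fun y => lin_zero (gg A) g0 g1 g2 y

private lemma notT (K : Set E3) (A : E3 ≃L[ℝ] E3) (hinv : ∀ v ∈ K, ∀ θ : ℝ, rot θ v ∈ K)
    (hK : ∀ v, v ∈ K ↔ A v ∈ Tcone) : False := by
  have hX := inv_axis A hinv hK (m := 6)
    ![fn 0 1 (-1), fn 1 0 (-1), fn 1 (-1) 0, fn 1 1 0, fn 1 0 1, fn 0 1 1]
    (by
      intro j
      fin_cases j
      · exact fn_ne (by norm_num)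
      · exact fn_ne (by norm_num)
      · exact fn_ne (by norm_num)
      · exact fn_ne (by norm_num)
      · exact fn_ne (by norm_num)
      · exact fn_ne (by norm_num))
    (by
      rintro y ⟨i, j, hij, s, t, hs, ht, h⟩
      have key : ∀ a b c a' b' c' : ℝ, y = s • pt a b c + t • pt a' b' c' →
          y 0 = s * a + t * a' ∧ y 1 = s * b + t * b' ∧ y 2 = s * c + t * c' := by
        intro a b c a' b' c' h
        rw [h]
        simp only [PiLp.add_apply, PiLp.smul_apply, smul_eq_mul, pt0, pt1, pt2, and_self]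
      fin_cases i <;> fin_cases j
      · exact absurd rfl hij
      · obtain ⟨h0, h1, h2⟩ := key _ _ _ _ _ _ h
        exact ⟨0, by show fn 0 1 (-1) y = 0; rw [fn_apply, h0, h1, h2]; ring⟩
      · obtain ⟨h0, h1, h2⟩ := key _ _ _ _ _ _ h
        exact ⟨1, by show fn 1 0 (-1) y = 0; rw [fn_apply, h0, h1, h2]; ring⟩
      · obtain ⟨h0, h1, h2⟩ := key _ _ _ _ _ _ h
        exact ⟨2, by show fn 1 (-1) 0 y = 0; rw [fn_apply, h0, h1, h2]; ring⟩
      · obtain ⟨h0, h1, h2⟩ := key _ _ _ _ _ _ h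
        exact ⟨0, by show fn 0 1 (-1) y = 0; rw [fn_apply, h0, h1, h2]; ring⟩
      · exact absurd rfl hij
      · obtain ⟨h0, h1, h2⟩ := key _ _ _ _ _ _ h
        exact ⟨3, by show fn 1 1 0 y = 0; rw [fn_apply, h0, h1, h2]; ring⟩
      · obtain ⟨h0, h1, h2⟩ := key _ _ _ _ _ _ h
        exact ⟨4, by show fn 1 0 1 y = 0; rw [fn_apply, h0, h1, h2]; ring⟩
      · obtain ⟨h0, h1, h2⟩ := key _ _ _ _ _ _ h
        exact ⟨1, by show fn 1 0 (-1) y = 0; rw [fn_apply, h0, h1, h2]; ring⟩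
      · obtain ⟨h0, h1, h2⟩ := key _ _ _ _ _ _ h
        exact ⟨3, by show fn 1 1 0 y = 0; rw [fn_apply, h0, h1, h2]; ring⟩
      · exact absurd rfl hij
      · obtain ⟨h0, h1, h2⟩ := key _ _ _ _ _ _ h
        exact ⟨5, by show fn 0 1 1 y = 0; rw [fn_apply, h0, h1, h2]; ring⟩
      · obtain ⟨h0, h1, h2⟩ := key _ _ _ _ _ _ h
        exact ⟨2, by show fn 1 (-1) 0 y = 0; rw [fn_apply, h0, h1, h2]; ring⟩
      · obtain ⟨h0, h1, h2⟩ := key _ _ _ _ _ _ h
        exact ⟨4, by show fn 1 0 1 y = 0; rw [fn_apply, h0, h1, h2]; ring⟩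
      · obtain ⟨h0, h1, h2⟩ := key _ _ _ _ _ _ h
        exact ⟨5, by show fn 0 1 1 y = 0; rw [fn_apply, h0, h1, h2]; ring⟩
      · exact absurd rfl hij)
  have hp : ∀ i j : Fin 4, i ≠ j → (∀ α β : ℝ, α • tv i + β • tv j = 0 → α = 0 ∧ β = 0) →
      gg A (tv i) = 0 ∧ gg A (tv j) = 0 := by
    intro i j hij hind
    rw [gg_apply, gg_apply]
    exact pair A hK hX (tv i) (tv j) (fun s t hs ht => ⟨i, j, hij, s, t, hs, ht, rfl⟩) hind
  have h01 := hp 0 1 (by decide) (by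
    intro α β h
    have h0 : (α • pt 1 1 1 + β • pt 1 (-1) (-1) : E3) 0 = 0 := by
      have h' : (α • pt 1 1 1 + β • pt 1 (-1) (-1) : E3) = 0 := h
      rw [h']; rfl
    have h1 : (α • pt 1 1 1 + β • pt 1 (-1) (-1) : E3) 1 = 0 := by
      have h' : (α • pt 1 1 1 + β • pt 1 (-1) (-1) : E3) = 0 := h
      rw [h']; rfl
    simp only [PiLp.add_apply, PiLp.smul_apply, smul_eq_mul, pt0, pt1] at h0 h1
    exact ⟨by linarith, by linarith⟩)
  have h23 := hp 2 3 (by decide) (by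
    intro α β h
    have h0 : (α • pt (-1) 1 (-1) + β • pt (-1) (-1) 1 : E3) 0 = 0 := by
      have h' : (α • pt (-1) 1 (-1) + β • pt (-1) (-1) 1 : E3) = 0 := h
      rw [h']; rfl
    have h1 : (α • pt (-1) 1 (-1) + β • pt (-1) (-1) 1 : E3) 1 = 0 := by
      have h' : (α • pt (-1) 1 (-1) + β • pt (-1) (-1) 1 : E3) = 0 := h
      rw [h']; rfl
    simp only [PiLp.add_apply, PiLp.smul_apply, smul_eq_mul, pt0, pt1] at h0 h1
    exact ⟨by linarith, by linarith⟩)
  have e0 : gg A (pt 1 1 1) = 0 := h01.1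
  have e1 : gg A (pt 1 (-1) (-1)) = 0 := h01.2
  have e2 : gg A (pt (-1) 1 (-1)) = 0 := h23.1
  have e3 : gg A (pt (-1) (-1) 1) = 0 := h23.2
  rw [lin_pt] at e0 e1 e2 e3
  have g0 : gg A (pt 1 0 0) = 0 := by linarith
  have g1 : gg A (pt 0 1 0) = 0 := by linarith
  have g2 : gg A (pt 0 0 1) = 0 := by linarith
  exact gg_ne A fun y => lin_zero (gg A) g0 g1 g2 y

theorem hNRI : StNRI := fun K A hinv => ⟨fun h => notY K A hinv h, fun h => notT K A hinv h⟩

end Pool.Agent.Helper40.CY
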